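import Mathlib
import Pool.Agent.H944R3.NR.Translate

set_option autoImplicit false

namespace Pool.Agent.H891R3.NR

open Module
open Pool.Agent.H944R3.NR (SysF)
open Pool.Agent.Results.MP_fb3fae_co.AllTriangles (E3 IsConvexPolyhedron IsTwoFace)

lemma dist_sq_eq (x y : E3) : dist x y ^ 2 = (x 0 - y 0) ^ 2 + (x 1 - y 1) ^ 2 + (x 2 - y 2) ^ 2 := by
  rw [EuclideanSpace.dist_eq, Real.sq_sqrt (Finset.sum_nonneg fun i _ => sq_nonneg _),
    Fin.sum_univ_three]
  simp [Real.dist_eq, sq_abs]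

theorem taskDisphenoid : TaskDisphenoid := by
  intro v y z w a b c ha hb hc h1 h2 h3 h4 h5 h6 h7
  have e1 := dist_sq_eq v y
  have e2 := dist_sq_eq z w
  have e3 := dist_sq_eq v w
  have e4 := dist_sq_eq y z
  have e5 := dist_sq_eq v z
  have e6 := dist_sq_eq y w
  rw [h1] at e1
  rw [h2] at e2
  rw [h3] at e3
  rw [h4] at e4
  rw [h5] at e5
  rw [h6] at e6
  have hv : 0 < (vol3 (y - v) (z - v) (w - v)) ^ 2 := by positivity
  have key : 2 * (vol3 (y - v) (z - v) (w - v)) ^ 2 =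
      (b ^ 2 + c ^ 2 - a ^ 2) * (c ^ 2 + a ^ 2 - b ^ 2) * (a ^ 2 + b ^ 2 - c ^ 2) := by
    -- inner products
    set p0 := y 0 - v 0 with hp0
    set p1 := y 1 - v 1 with hp1
    set p2 := y 2 - v 2 with hp2
    set q0 := z 0 - v 0 with hq0
    set q1 := z 1 - v 1 with hq1
    set q2 := z 2 - v 2 with hq2
    set r0 := w 0 - v 0 with hr0
    set r1 := w 1 - v 1 with hr1
    set r2 := w 2 - v 2 with hr2
    have f1 : c ^ 2 = p0 ^ 2 + p1 ^ 2 + p2 ^ 2 := by rw [e1, hp0, hp1, hp2]; ring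
    have f2 : b ^ 2 = q0 ^ 2 + q1 ^ 2 + q2 ^ 2 := by rw [e5, hq0, hq1, hq2]; ring
    have f3 : a ^ 2 = r0 ^ 2 + r1 ^ 2 + r2 ^ 2 := by rw [e3, hr0, hr1, hr2]; ring
    have f4 : a ^ 2 = (p0 - q0) ^ 2 + (p1 - q1) ^ 2 + (p2 - q2) ^ 2 := by
      rw [e4, hp0, hp1, hp2, hq0, hq1, hq2]; ring
    have f5 : c ^ 2 = (q0 - r0) ^ 2 + (q1 - r1) ^ 2 + (q2 - r2) ^ 2 := by
      rw [e2, hq0, hq1, hq2, hr0, hr1, hr2]; ring
    have f6 : b ^ 2 = (p0 - r0) ^ 2 + (p1 - r1) ^ 2 + (p2 - r2) ^ 2 := by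
      rw [e6, hp0, hp1, hp2, hr0, hr1, hr2]; ring
    have g1 : b ^ 2 + c ^ 2 - a ^ 2 = 2 * (p0 * q0 + p1 * q1 + p2 * q2) := by linarith
    have g2 : c ^ 2 + a ^ 2 - b ^ 2 = 2 * (p0 * r0 + p1 * r1 + p2 * r2) := by linarith
    have g3 : a ^ 2 + b ^ 2 - c ^ 2 = 2 * (q0 * r0 + q1 * r1 + q2 * r2) := by linarith
    set X := p0 * q0 + p1 * q1 + p2 * q2 with hX
    set U := p0 * r0 + p1 * r1 + p2 * r2 with hU
    set T := q0 * r0 + q1 * r1 + q2 * r2 with hT
    have k1 : p0 ^ 2 + p1 ^ 2 + p2 ^ 2 = X + U := by linarith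
    have k2 : q0 ^ 2 + q1 ^ 2 + q2 ^ 2 = X + T := by linarith
    have k3 : r0 ^ 2 + r1 ^ 2 + r2 ^ 2 = U + T := by linarith
    have hvol : vol3 (y - v) (z - v) (w - v) =
        p0 * (q1 * r2 - q2 * r1) - p1 * (q0 * r2 - q2 * r0) + p2 * (q0 * r1 - q1 * r0) := by
      simp only [vol3, PiLp.sub_apply]
      rfl
    have gram : (p0 * (q1 * r2 - q2 * r1) - p1 * (q0 * r2 - q2 * r0) +
        p2 * (q0 * r1 - q1 * r0)) ^ 2 =
        (p0 ^ 2 + p1 ^ 2 + p2 ^ 2) * (q0 ^ 2 + q1 ^ 2 + q2 ^ 2) * (r0 ^ 2 + r1 ^ 2 + r2 ^ 2) +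
        2 * X * U * T - (p0 ^ 2 + p1 ^ 2 + p2 ^ 2) * T ^ 2 - (q0 ^ 2 + q1 ^ 2 + q2 ^ 2) * U ^ 2 -
        (r0 ^ 2 + r1 ^ 2 + r2 ^ 2) * X ^ 2 := by
      rw [hX, hU, hT]; ring
    rw [hvol, gram, k1, k2, k3, g1, g2, g3]
    ring
  have hpos : 0 < (b ^ 2 + c ^ 2 - a ^ 2) * (c ^ 2 + a ^ 2 - b ^ 2) * (a ^ 2 + b ^ 2 - c ^ 2) := by
    rw [← key]; positivity
  have ha2 : 0 < a ^ 2 := by positivity
  have hb2 : 0 < b ^ 2 := by positivity
  have hc2 : 0 < c ^ 2 := by positivity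
  refine ⟨?_, ?_, ?_⟩
  · by_contra hcon
    push Not at hcon
    have s1 : 0 < c ^ 2 + a ^ 2 - b ^ 2 := by linarith
    have s2 : 0 < a ^ 2 + b ^ 2 - c ^ 2 := by linarith
    have s3 : b ^ 2 + c ^ 2 - a ^ 2 ≤ 0 := by linarith
    have := mul_nonpos_of_nonpos_of_nonneg (mul_nonpos_of_nonpos_of_nonneg s3 s1.le) s2.le
    linarith
  · by_contra hcon
    push Not at hcon
    have s1 : 0 < b ^ 2 + c ^ 2 - a ^ 2 := by linarith
    have s2 : 0 < a ^ 2 + b ^ 2 - c ^ 2 := by linarith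
    have s3 : c ^ 2 + a ^ 2 - b ^ 2 ≤ 0 := by linarith
    have := mul_nonpos_of_nonpos_of_nonneg (mul_nonpos_of_nonneg_of_nonpos s1.le s3) s2.le
    linarith
  · by_contra hcon
    push Not at hcon
    have s1 : 0 < b ^ 2 + c ^ 2 - a ^ 2 := by linarith
    have s2 : 0 < c ^ 2 + a ^ 2 - b ^ 2 := by linarith
    have s3 : a ^ 2 + b ^ 2 - c ^ 2 ≤ 0 := by linarith
    have := mul_nonpos_of_nonneg_of_nonpos (mul_nonneg s1.le s2.le) s3
    linarith

/-- linear functional in the second argument -/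
def volM (u w : E3) : E3 →ₗ[ℝ] ℝ where
  toFun v := vol3 u v w
  map_add' v v' := by simp only [vol3, PiLp.add_apply]; ring
  map_smul' r v := by simp only [vol3, PiLp.smul_apply, smul_eq_mul, RingHom.id_apply]; ring

/-- linear functional in the third argument -/
def volR (u v : E3) : E3 →ₗ[ℝ] ℝ where
  toFun w := vol3 u v w
  map_add' v v' := by simp only [vol3, PiLp.add_apply]; ring
  map_smul' r v := by simp only [vol3, PiLp.smul_apply, smul_eq_mul, RingHom.id_apply]; ring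

@[simp] lemma volM_apply (u w v : E3) : volM u w v = vol3 u v w := rfl
@[simp] lemma volR_apply (u v w : E3) : volR u v w = vol3 u v w := rfl

lemma vol3_swap23 (u v w : E3) : vol3 u v w = -vol3 u w v := by simp only [vol3]; ring
lemma vol3_self12 (u w : E3) : vol3 u u w = 0 := by simp only [vol3]; ring
lemma vol3_self13 (u v : E3) : vol3 u v u = 0 := by simp only [vol3]; ring
lemma vol3_self23 (u v : E3) : vol3 u v v = 0 := by simp only [vol3]; ring

variable {V : Finset E3} {o : E3} {a b c : ℝ} {x y z : E3}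

lemma Facet.cyc (h : Facet V a b c x y z) : Facet V b c a y z x := by
  obtain ⟨h1, h2, h3, h4, h5, h6, h7⟩ := h
  refine ⟨h2, h3, h1, h5, h6, h4, ?_⟩
  intro v hv n1 n2 n3
  have := h7 v hv n3 n1 n2
  have e : vol3 (z - y) (x - y) (v - y) = vol3 (y - x) (z - x) (v - x) := by
    simp only [vol3, PiLp.sub_apply]; ring
  rw [e]; exact this

lemma Facet.cyc' (h : Facet V b c a y z x) : Facet V a b c x y z := h.cyc.cyc

lemma _root_.Pool.Agent.H944R3.NR.SysF.cyc (h : SysF V o a b c) : SysF V o b c a where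
  noncoplanar := h.noncoplanar
  inner := by
    intro y z x hF
    have h1 := h.inner x y z hF.cyc'
    have e : vol3 (z - y) (x - y) (o - y) = vol3 (y - x) (z - x) (o - x) := by
      simp only [vol3, PiLp.sub_apply]; ring
    rw [e]; exact h1
  contact := by
    intro l M hl0 hl hp
    obtain ⟨x, y, z, hF, hv⟩ := h.contact l M hl0 hl hp
    refine ⟨y, z, x, hF.cyc, fun v hvV => ?_⟩
    rw [hv v hvV]; tauto

lemma Facet.ne12 (h : Facet V a b c x y z) (hc : 0 < c) : x ≠ y := by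
  intro e
  have := h.2.2.2.2.2.1
  rw [e, dist_self] at this
  linarith

lemma Facet.ne23 (h : Facet V a b c x y z) (ha : 0 < a) : y ≠ z := h.cyc.ne12 ha
lemma Facet.ne31 (h : Facet V a b c x y z) (hb : 0 < b) : z ≠ x := h.cyc.cyc.ne12 hb

/-- A point of `V` outside of a facet. -/
lemma _root_.Pool.Agent.H944R3.NR.SysF.exists_out (hS : SysF V o a b c) (h : Facet V a b c x y z) :
    ∃ v ∈ V, v ≠ x ∧ v ≠ y ∧ v ≠ z := by
  by_contra hcon
  push Not at hcon
  have h0 := hS.inner x y z h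
  have hl : volR (y - x) (z - x) = 0 := by
    apply hS.noncoplanar _ (volR (y - x) (z - x) x)
    intro v hv
    by_cases h1 : v = x
    · rw [h1]
    by_cases h2 : v = y
    · rw [h2, ← sub_eq_zero, ← map_sub, volR_apply, vol3_self13]
    · have h3 := hcon v hv h1 h2
      rw [h3, ← sub_eq_zero, ← map_sub, volR_apply, vol3_self23]
  have h1 : volR (y - x) (z - x) (o - x) = 0 := by rw [hl]; rfl
  rw [volR_apply] at h1
  linarith

/-- third vertex is determined -/
lemma Facet.unique {z' : E3} (ha : 0 < a) (hb : 0 < b) (h : Facet V a b c x y z)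
    (h' : Facet V a b c x y z') : z = z' := by
  by_contra hne
  have h1 := h.2.2.2.2.2.2 z' h'.2.2.1 (h'.ne31 hb) (h'.ne23 ha).symm (Ne.symm hne)
  have h2 := h'.2.2.2.2.2.2 z h.2.2.1 (h.ne31 hb) (h.ne23 ha).symm hne
  rw [vol3_swap23] at h2
  linarith

/-- Crossing the edge `x y`. -/
lemma _root_.Pool.Agent.H944R3.NR.SysF.cross (hS : SysF V o a b c) (ha : 0 < a) (hb : 0 < b) (hc : 0 < c) (_hab : a ≠ b)
    (hbc : b ≠ c) (hca : c ≠ a) (h : Facet V a b c x y z) : ∃ w, Facet V a b c y x w := by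
  classical
  obtain ⟨u, hu, hu1, hu2, hu3⟩ := hS.exists_out h
  have ho := hS.inner x y z h
  set S := V.filter (fun v => v ≠ x ∧ v ≠ y ∧ v ≠ z) with hSdef
  have hSne : S.Nonempty := ⟨u, Finset.mem_filter.2 ⟨hu, hu1, hu2, hu3⟩⟩
  set f : E3 → ℝ := fun v => vol3 (y - x) (z - x) (v - x) with hf
  set G : E3 → ℝ := fun v => vol3 (y - x) (v - x) (o - x) with hG
  obtain ⟨v1, hv1, hmax⟩ := Finset.exists_max_image S (fun v => G v / (-f v)) hSne
  have hfS : ∀ v ∈ S, f v < 0 := by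
    intro v hv
    rw [hSdef, Finset.mem_filter] at hv
    exact h.2.2.2.2.2.2 v hv.1 hv.2.1 hv.2.2.1 hv.2.2.2
  set lam : ℝ := G v1 / (-f v1) with hlam
  set l : E3 →ₗ[ℝ] ℝ := volM (y - x) (o - x) + lam • volR (y - x) (z - x) with hl
  have hlv : ∀ v, l v - l x = G v + lam * f v := by
    intro v
    rw [← map_sub, hl]
    simp only [LinearMap.add_apply, LinearMap.smul_apply, volM_apply, volR_apply, smul_eq_mul]
    rfl
  have hly : l y = l x := by
    have := hlv y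
    simp only [hG, hf, vol3_self12, vol3_self13, mul_zero, add_zero] at this
    linarith
  have hlz : l z < l x := by
    have := hlv z
    simp only [hG, hf, vol3_self23, mul_zero, add_zero] at this
    linarith
  have hlS : ∀ v ∈ S, l v ≤ l x := by
    intro v hv
    have h1 := hlv v
    have h2 := hmax v hv
    have h3 := hfS v hv
    rw [div_le_iff₀ (by linarith)] at h2
    have : G v + lam * f v ≤ 0 := by
      have : lam * -f v = -(lam * f v) := by ring
      linarith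
    linarith
  have hlv1 : l v1 = l x := by
    have h1 := hlv v1
    have h3 := hfS v1 hv1
    have : lam * f v1 = -G v1 := by
      rw [hlam, div_neg, neg_mul, div_mul_cancel₀ _ h3.ne]
    linarith
  have hle : ∀ v ∈ V, l v ≤ l x := by
    intro v hv
    by_cases e1 : v = x
    · rw [e1]
    by_cases e2 : v = y
    · rw [e2, hly]
    by_cases e3 : v = z
    · rw [e3]; exact hlz.le
    · exact hlS v (Finset.mem_filter.2 ⟨hv, e1, e2, e3⟩)
  have hv1S := hv1
  rw [hSdef, Finset.mem_filter] at hv1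
  have hxy : x ≠ y := h.ne12 hc
  have haff : AffineIndependent ℝ ![x, y, v1] := by
    apply affineIndependent_of_ne_of_mem_of_mem_of_notMem (s := line[ℝ, x, y]) hxy
      (left_mem_affineSpan_pair ℝ x y) (right_mem_affineSpan_pair ℝ x y)
    intro hmem
    rw [mem_affineSpan_pair_iff_exists_lineMap_eq] at hmem
    obtain ⟨t, ht⟩ := hmem
    have h1 : f v1 = 0 := by
      simp only [hf]
      rw [← ht]
      simp only [vol3, AffineMap.lineMap_apply, vsub_eq_sub, vadd_eq_add, PiLp.sub_apply,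
        PiLp.add_apply, PiLp.smul_apply, smul_eq_mul]
      ring
    have := hfS v1 hv1S
    linarith
  have hl0 : l ≠ 0 := by
    intro h0
    rw [h0] at hlz
    simp at hlz
  obtain ⟨X, Y, Z, hF, hcon⟩ := hS.contact l (l x) hl0 hle
    ⟨x, h.1, y, h.2.1, v1, hv1.1, rfl, hly, hlv1, haff⟩
  have hx := (hcon x h.1).1 rfl
  have hy := (hcon y h.2.1).1 hly
  have hXl : l X = l x := (hcon X hF.1).2 (Or.inl rfl)
  have hYl : l Y = l x := (hcon Y hF.2.1).2 (Or.inr (Or.inl rfl))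
  have hZl : l Z = l x := (hcon Z hF.2.2.1).2 (Or.inr (Or.inr rfl))
  have hXz : X ≠ z := by rintro rfl; linarith
  have hYz : Y ≠ z := by rintro rfl; linarith
  have hZz : Z ≠ z := by rintro rfl; linarith
  have dxy := h.2.2.2.2.2.1
  have d1 := hF.2.2.2.1
  have d2 := hF.2.2.2.2.1
  have d3 := hF.2.2.2.2.2.1
  rcases hx with rfl | rfl | rfl
  · rcases hy with rfl | rfl | rfl
    · exact absurd rfl hxy
    · exfalso
      have k1 := h.2.2.2.2.2.2 Z hF.2.2.1 (hF.ne31 hb) (hF.ne23 ha).symm hZz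
      have k2 := hF.2.2.2.2.2.2 z h.2.2.1 (h.ne31 hb) (h.ne23 ha).symm hZz.symm
      rw [vol3_swap23] at k2
      linarith
    · exfalso
      rw [dist_comm] at d2
      exact hbc (by rw [← d2, ← dxy])
  · rcases hy with rfl | rfl | rfl
    · exact ⟨Z, hF⟩
    · exact absurd rfl hxy
    · exfalso
      exact hca (by rw [← d1, ← dxy])
  · rcases hy with rfl | rfl | rfl
    · exfalso
      exact hbc (by rw [← d2, ← dxy])
    · exfalso
      rw [dist_comm] at d1
      exact hca (by rw [← d1, ← dxy])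
    · exact absurd rfl hxy

end Pool.Agent.H891R3.NR
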