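import Mathlib
import Pool.Agent.H891R3.NR.Core1

set_option autoImplicit false

namespace Pool.Agent.H891R3.NR

open Module
open Pool.Agent.H944R3.NR (SysF TaskCoreF)
open Pool.Agent.Results.MP_fb3fae_co.AllTriangles (E3 IsConvexPolyhedron IsTwoFace)

variable {V : Finset E3} {o : E3} {a b c : ℝ} {x y z : E3}

/-- Crossing the edge `y z`. -/
lemma _root_.Pool.Agent.H944R3.NR.SysF.crossA (hS : SysF V o a b c) (ha : 0 < a) (hb : 0 < b) (hc : 0 < c) (hab : a ≠ b)
    (hbc : b ≠ c) (hca : c ≠ a) (h : Facet V a b c x y z) : ∃ w, Facet V a b c w z y := by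
  obtain ⟨w, hw⟩ := hS.cyc.cross hb hc ha hbc hca hab h.cyc
  exact ⟨w, hw.cyc'⟩

/-- Crossing the edge `z x`. -/
lemma _root_.Pool.Agent.H944R3.NR.SysF.crossB (hS : SysF V o a b c) (ha : 0 < a) (hb : 0 < b) (hc : 0 < c) (hab : a ≠ b)
    (hbc : b ≠ c) (hca : c ≠ a) (h : Facet V a b c x y z) : ∃ w, Facet V a b c z w x := by
  obtain ⟨w, hw⟩ := hS.cyc.cyc.cross hc ha hb hca hab hbc h.cyc.cyc
  exact ⟨w, hw.cyc⟩

/-- The local argument. -/
lemma _root_.Pool.Agent.H944R3.NR.SysF.local (hS : SysF V o a b c) (ha : 0 < a) (hb : 0 < b) (hc : 0 < c) (hab : a ≠ b)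
    (hbc : b ≠ c) (hca : c ≠ a) {v : E3} (h : Facet V a b c v y z)
    (huniq : ∀ y' z', Facet V a b c v y' z' → y' = y) :
    ∃ v y z w : E3, dist v y = c ∧ dist z w = c ∧ dist v w = a ∧ dist y z = a ∧ dist v z = b ∧
      dist y w = b ∧ vol3 (y - v) (z - v) (w - v) ≠ 0 := by
  obtain ⟨w, hw⟩ := hS.cross ha hb hc hab hbc hca h
  obtain ⟨w', hw'⟩ := hS.crossA ha hb hc hab hbc hca hw
  obtain ⟨u, hu⟩ := hS.crossB ha hb hc hab hbc hca hw'
  have e := huniq _ _ hu
  subst e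
  have e2 := Facet.unique ha hb hu h
  subst e2
  refine ⟨v, u, w', w, h.2.2.2.2.2.1, hw'.2.2.2.2.2.1, ?_, h.2.2.2.1, ?_, ?_, ?_⟩
  · rw [dist_comm]; exact hw'.2.2.2.1
  · rw [dist_comm]; exact h.2.2.2.2.1
  · rw [dist_comm]; exact hw.2.2.2.2.1
  · have h1 : w ≠ v := hw'.ne23 ha
    have h2 : w ≠ u := hw.ne31 hb
    have h3 : w ≠ w' := (hw'.ne12 hc).symm
    exact (h.2.2.2.2.2.2 w hw.2.2.1 h1 h2 h3).ne

/-- Labels are determined by the vertex set. -/
lemma label {x' y' z' : E3} (hab : a ≠ b) (hbc : b ≠ c) (hca : c ≠ a)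
    (ha : 0 < a) (hb : 0 < b) (hc : 0 < c)
    (d1 : dist y z = a) (d2 : dist z x = b) (d3 : dist x y = c)
    (e1 : dist y' z' = a) (e2 : dist z' x' = b) (e3 : dist x' y' = c)
    (hx : x = x' ∨ x = y' ∨ x = z') (hy : y = x' ∨ y = y' ∨ y = z')
    (hz : z = x' ∨ z = y' ∨ z = z') : x = x' ∧ y = y' := by
  have f1 := dist_comm x' y'
  have f2 := dist_comm y' z'
  have f3 := dist_comm z' x'
  have g1 := dist_self x'
  have g2 := dist_self y'
  have g3 := dist_self z'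
  rcases hx with hx | hx | hx <;> rcases hy with hy | hy | hy <;> rcases hz with hz | hz | hz <;>
    rw [hx, hy] at d3 <;> rw [hy, hz] at d1 <;> rw [hz, hx] at d2 <;>
    first
    | exact ⟨hx, hy⟩
    | exact absurd (by linarith : a = b) hab
    | exact absurd (by linarith : b = c) hbc
    | exact absurd (by linarith : c = a) hca

/-- `v` is the middle vertex of the triangle `x y z` with respect to `l`. -/
def Mid (l : E3 →ₗ[ℝ] ℝ) (v x y z : E3) : Prop :=
  ∃ p q : E3, l p < l v ∧ l v < l q ∧ (v = x ∨ v = y ∨ v = z) ∧ (p = x ∨ p = y ∨ p = z) ∧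
    (q = x ∨ q = y ∨ q = z) ∧ (x = v ∨ x = p ∨ x = q) ∧ (y = v ∨ y = p ∨ y = q) ∧
    (z = v ∨ z = p ∨ z = q)

lemma exists_mid (l : E3 →ₗ[ℝ] ℝ) (h1 : l x ≠ l y) (h2 : l y ≠ l z) (h3 : l z ≠ l x) :
    ∃ v, Mid l v x y z := by
  rcases lt_or_gt_of_ne h1 with h1 | h1 <;> rcases lt_or_gt_of_ne h2 with h2 | h2 <;>
    rcases lt_or_gt_of_ne h3 with h3 | h3
  · exfalso; linarith
  · exact ⟨y, x, z, h1, h2, by simp⟩
  · exact ⟨x, z, y, h3, h1, by simp⟩
  · exact ⟨z, x, y, h3, h2, by simp⟩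
  · exact ⟨z, y, x, h2, h3, by simp⟩
  · exact ⟨x, y, z, h1, h3, by simp⟩
  · exact ⟨y, z, x, h2, h1, by simp⟩
  · exfalso; linarith

lemma plane_eq {w : E3} (h : w = x ∨ w = y ∨ w = z) :
    volR (y - x) (z - x) w = volR (y - x) (z - x) x := by
  rcases h with rfl | rfl | rfl
  · rfl
  · rw [← sub_eq_zero, ← map_sub, volR_apply, vol3_self13]
  · rw [← sub_eq_zero, ← map_sub, volR_apply, vol3_self23]

lemma exists_d (hab : a ≠ b) (hbc : b ≠ c) (hca : c ≠ a) (ha : 0 < a) (hb : 0 < b) (hc : 0 < c)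
    {l : E3 →ₗ[ℝ] ℝ} {v : E3} (h : Facet V a b c x y z) (hm : Mid l v x y z) :
    ∃ d : E3, l d = 0 ∧ volR (y - x) (z - x) d = 0 ∧ ∀ x' y' z', Facet V a b c x' y' z' →
      (v = x' ∨ v = y' ∨ v = z') → (x, y) ≠ (x', y') → volR (y' - x') (z' - x') d < 0 := by
  obtain ⟨p, q, hp, hq, hv1, hp1, hq1, hx, hy, hz⟩ := hm
  refine ⟨(l q - l v) • (p - v) + (l v - l p) • (q - v), ?_, ?_, ?_⟩
  · simp only [map_add, map_smul, map_sub, smul_eq_mul]; ring
  · simp only [map_add, map_smul, map_sub, smul_eq_mul]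
    have e1 := plane_eq hp1
    have e2 := plane_eq hq1
    have e3 := plane_eq hv1
    rw [e1, e2, e3]; ring
  · intro x' y' z' h' hv' hne
    have hpV : p ∈ V := by
      rcases hp1 with rfl | rfl | rfl
      · exact h.1
      · exact h.2.1
      · exact h.2.2.1
    have hqV : q ∈ V := by
      rcases hq1 with rfl | rfl | rfl
      · exact h.1
      · exact h.2.1
      · exact h.2.2.1
    have key : ∀ w ∈ V, volR (y' - x') (z' - x') (w - v) ≤ 0 ∧
        (volR (y' - x') (z' - x') (w - v) < 0 ∨ (w = x' ∨ w = y' ∨ w = z')) := by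
      intro w hw
      have e3 := plane_eq hv'
      rw [map_sub, e3, ← map_sub]
      by_cases h1 : w = x' ∨ w = y' ∨ w = z'
      · have e4 := plane_eq h1
        rw [map_sub, e4, sub_self]
        exact ⟨le_rfl, Or.inr h1⟩
      · push Not at h1
        have := h'.2.2.2.2.2.2 w hw h1.1 h1.2.1 h1.2.2
        rw [volR_apply]
        exact ⟨this.le, Or.inl this⟩
    obtain ⟨k1, k2⟩ := key p hpV
    obtain ⟨k3, k4⟩ := key q hqV
    have s1 : 0 < l q - l v := by linarith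
    have s2 : 0 < l v - l p := by linarith
    rw [map_add, map_smul, map_smul, smul_eq_mul, smul_eq_mul]
    rcases k2 with k2 | k2
    · have := mul_neg_of_pos_of_neg s1 k2
      have := mul_nonpos_of_nonneg_of_nonpos s2.le k3
      linarith
    rcases k4 with k4 | k4
    · have := mul_neg_of_pos_of_neg s2 k4
      have := mul_nonpos_of_nonneg_of_nonpos s1.le k1
      linarith
    exfalso
    have in' : ∀ w, (w = v ∨ w = p ∨ w = q) → (w = x' ∨ w = y' ∨ w = z') := by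
      rintro w (rfl | rfl | rfl)
      · exact hv'
      · exact k2
      · exact k4
    obtain ⟨e1, e2⟩ := label hab hbc hca ha hb hc h.2.2.2.1 h.2.2.2.2.1 h.2.2.2.2.2.1 h'.2.2.2.1
      h'.2.2.2.2.1 h'.2.2.2.2.2.1 (in' x hx) (in' y hy) (in' z hz)
    exact hne (by rw [e1, e2])

lemma three (l F1 F2 F3 : E3 →ₗ[ℝ] ℝ) (hl : l ≠ 0) (d1 d2 d3 : E3)
    (h1 : l d1 = 0) (h2 : l d2 = 0) (h3 : l d3 = 0)
    (f11 : F1 d1 = 0) (f12 : F1 d2 < 0) (f13 : F1 d3 < 0)
    (f21 : F2 d1 < 0) (f22 : F2 d2 = 0) (f23 : F2 d3 < 0)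
    (f31 : F3 d1 < 0) (f32 : F3 d2 < 0) (f33 : F3 d3 = 0) : False := by
  have hnot : ¬ LinearIndependent ℝ ![d1, d2, d3] := by
    intro hli
    have hcard : Fintype.card (Fin 3) = Module.finrank ℝ E3 := by
      simp [finrank_euclideanSpace]
    let B := basisOfLinearIndependentOfCardEqFinrank hli hcard
    apply hl
    apply B.ext
    intro i
    have hB : B i = ![d1, d2, d3] i := by
      simp [B]
    rw [hB]
    fin_cases i
    · simpa using h1
    · simpa using h2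
    · simpa using h3
  rw [Fintype.not_linearIndependent_iff] at hnot
  obtain ⟨g, hg, i, hi⟩ := hnot
  rw [Fin.sum_univ_three] at hg
  simp only [Matrix.cons_val_zero, Matrix.cons_val_one, Matrix.cons_val_two, Matrix.head_cons,
    Matrix.tail_cons] at hg
  have k1 := congrArg F1 hg
  have k2 := congrArg F2 hg
  have k3 := congrArg F3 hg
  simp only [map_add, map_smul, smul_eq_mul, map_zero, f11, f22, f33, mul_zero, zero_add,
    add_zero] at k1 k2 k3
  -- k1 : g1*F1 d2 + g2*F1 d3 = 0 ; k2 : g0*F2 d1 + g2*F2 d3 = 0 ; k3 : g0*F3 d1 + g1*F3 d2 = 0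
  have all0 : g 0 = 0 ∧ g 1 = 0 ∧ g 2 = 0 := by
    have hneg : ∀ s t u w : ℝ, u < 0 → w < 0 → s * u + t * w = 0 → 0 < s → t < 0 := by
      intro s t u w hu hw h hs
      by_contra ht
      push Not at ht
      have e1 := mul_neg_of_pos_of_neg hs hu
      have e2 := mul_nonpos_of_nonneg_of_nonpos ht hw.le
      linarith
    have hpos : ∀ s t u w : ℝ, u < 0 → w < 0 → s * u + t * w = 0 → s < 0 → 0 < t := by
      intro s t u w hu hw h hs
      by_contra ht
      push Not at ht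
      have e1 := mul_pos_of_neg_of_neg hs hu
      have e2 := mul_nonneg_of_nonpos_of_nonpos ht hw.le
      linarith
    have hzero : ∀ s t u w : ℝ, u < 0 → w < 0 → s * u + t * w = 0 → s = 0 → t = 0 := by
      intro s t u w hu hw h hs
      rw [hs, zero_mul, zero_add] at h
      rcases mul_eq_zero.1 h with h | h
      · exact h
      · exfalso; linarith
    rcases lt_trichotomy (g 0) 0 with h0 | h0 | h0
    · have a1 := hpos _ _ _ _ f31 f32 k3 h0
      have a2 := hpos _ _ _ _ f21 f23 k2 h0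
      have a3 := hneg _ _ _ _ f12 f13 k1 a1
      exfalso; linarith
    · exact ⟨h0, hzero _ _ _ _ f31 f32 k3 h0, hzero _ _ _ _ f21 f23 k2 h0⟩
    · have a1 := hneg _ _ _ _ f31 f32 k3 h0
      have a2 := hneg _ _ _ _ f21 f23 k2 h0
      have a3 := hpos _ _ _ _ f12 f13 k1 a1
      exfalso; linarith
  apply hi
  fin_cases i
  · exact all0.1
  · exact all0.2.1
  · exact all0.2.2

/-- A linear functional which is injective on `V`. -/
lemma exists_generic (V : Finset E3) : ∃ l : E3 →ₗ[ℝ] ℝ, ∀ p ∈ V, ∀ q ∈ V, p ≠ q → l p ≠ l q := by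
  classical
  obtain ⟨f, hf⟩ := Module.exists_dual_forall_apply_ne_zero (K := ℝ) (M := E3)
    (ι := {r : V × V // r.1 ≠ r.2}) (fun r => (r.1.1 : E3) - (r.1.2 : E3)) (by
      rintro ⟨⟨p, q⟩, h⟩ h0
      apply h
      exact Subtype.ext (sub_eq_zero.1 h0))
  refine ⟨f, fun p hp q hq hpq hfe => ?_⟩
  apply hf ⟨(⟨p, hp⟩, ⟨q, hq⟩), fun h => hpq (congrArg Subtype.val h)⟩
  simp only [map_sub]
  exact sub_eq_zero.2 hfe

theorem taskCoreF : TaskCoreF := by
  classical
  intro V o a b c ha hb hc hab hbc hca hS hex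
  by_contra hcon
  -- every corner has a second corner
  have hsec : ∀ v y z, Facet V a b c v y z → ∃ y' z', Facet V a b c v y' z' ∧ y' ≠ y := by
    intro v y z h
    by_contra hno
    push Not at hno
    exact hcon (hS.local ha hb hc hab hbc hca h hno)
  obtain ⟨l, hl⟩ := exists_generic V
  set E : Finset (E3 × E3) := (V ×ˢ V).filter (fun p => ∃ z, Facet V a b c p.1 p.2 z) with hE
  set W : Finset E3 := V.filter (fun v => ∃ y z, Facet V a b c v y z) with hW
  have hWmem : ∀ x y z, Facet V a b c x y z → x ∈ W ∧ y ∈ W ∧ z ∈ W := by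
    intro x y z h
    obtain ⟨w, hw⟩ := hS.cross ha hb hc hab hbc hca h
    obtain ⟨w', hw'⟩ := hS.crossB ha hb hc hab hbc hca h
    refine ⟨Finset.mem_filter.2 ⟨h.1, y, z, h⟩, Finset.mem_filter.2 ⟨h.2.1, x, w, hw⟩,
      Finset.mem_filter.2 ⟨h.2.2.1, w', x, hw'⟩⟩
  have hEmem : ∀ x y z, Facet V a b c x y z → (x, y) ∈ E := by
    intro x y z h
    exact Finset.mem_filter.2 ⟨Finset.mem_product.2 ⟨h.1, h.2.1⟩, z, h⟩
  obtain ⟨x0, y0, z0, h0⟩ := hex
  have hWne : W.Nonempty := ⟨x0, (hWmem _ _ _ h0).1⟩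
  have hlne : l ≠ 0 := by
    intro h
    apply hl x0 h0.1 y0 h0.2.1 (h0.ne12 hc)
    rw [h]; rfl
  -- lower bound
  have hlow : W.card * 2 ≤ E.card := by
    rw [Finset.card_eq_sum_card_fiberwise (f := Prod.fst) (s := E) (t := W)]
    · rw [← smul_eq_mul]
      apply Finset.card_nsmul_le_sum
      intro v hv
      rw [hW, Finset.mem_filter] at hv
      obtain ⟨-, y, z, h⟩ := hv
      obtain ⟨y', z', h', hne⟩ := hsec v y z h
      have : 1 < (E.filter (fun p => p.1 = v)).card := by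
        rw [Finset.one_lt_card]
        refine ⟨(v, y), ?_, (v, y'), ?_, ?_⟩
        · exact Finset.mem_filter.2 ⟨hEmem _ _ _ h, rfl⟩
        · exact Finset.mem_filter.2 ⟨hEmem _ _ _ h', rfl⟩
        · intro e
          exact hne (congrArg Prod.snd e).symm
      exact this
    · intro p hp
      have hp' := hp
      simp only [hE, Finset.coe_filter, Set.mem_ofPred_eq] at hp'
      obtain ⟨-, z, hz⟩ := hp'
      exact (hWmem _ _ _ hz).1
  -- upper bound
  obtain ⟨t, ht, hmax⟩ := Finset.exists_max_image W (fun v => l v) hWne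
  set M : E3 → Finset (E3 × E3) :=
    fun v => E.filter (fun p => ∃ z, Facet V a b c p.1 p.2 z ∧ Mid l v p.1 p.2 z) with hM
  have hM2 : ∀ v, (M v).card ≤ 2 := by
    intro v
    by_contra hgt
    push Not at hgt
    rw [Finset.two_lt_card] at hgt
    obtain ⟨p1, hp1, p2, hp2, p3, hp3, n12, n13, n23⟩ := hgt
    rw [hM] at hp1 hp2 hp3
    simp only [Finset.mem_filter] at hp1 hp2 hp3
    obtain ⟨-, z1, f1, m1⟩ := hp1
    obtain ⟨-, z2, f2, m2⟩ := hp2
    obtain ⟨-, z3, f3, m3⟩ := hp3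
    obtain ⟨d1, a1, a2, a3⟩ := exists_d hab hbc hca ha hb hc f1 m1
    obtain ⟨d2, b1, b2, b3⟩ := exists_d hab hbc hca ha hb hc f2 m2
    obtain ⟨d3, c1, c2, c3⟩ := exists_d hab hbc hca ha hb hc f3 m3
    have v1 : v = p1.1 ∨ v = p1.2 ∨ v = z1 := by obtain ⟨_, _, _, _, h, _⟩ := m1; exact h
    have v2 : v = p2.1 ∨ v = p2.2 ∨ v = z2 := by obtain ⟨_, _, _, _, h, _⟩ := m2; exact h
    have v3 : v = p3.1 ∨ v = p3.2 ∨ v = z3 := by obtain ⟨_, _, _, _, h, _⟩ := m3; exact h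
    exact three l _ _ _ hlne d1 d2 d3 a1 b1 c1 a2 (b3 _ _ _ f1 v1 n12.symm)
      (c3 _ _ _ f1 v1 n13.symm) (a3 _ _ _ f2 v2 n12) b2 (c3 _ _ _ f2 v2 n23.symm)
      (a3 _ _ _ f3 v3 n13) (b3 _ _ _ f3 v3 n23) c2
  have hsub : E ⊆ (W.erase t).biUnion M := by
    intro p hp
    have hp' := hp
    rw [hE, Finset.mem_filter] at hp'
    obtain ⟨-, z, hz⟩ := hp'
    obtain ⟨w1, w2, w3⟩ := hWmem _ _ _ hz
    obtain ⟨v, hv⟩ := exists_mid (x := p.1) (y := p.2) (z := z) l
      (hl _ hz.1 _ hz.2.1 (hz.ne12 hc)) (hl _ hz.2.1 _ hz.2.2.1 (hz.ne23 ha))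
      (hl _ hz.2.2.1 _ hz.1 (hz.ne31 hb))
    have hv0 := hv
    obtain ⟨q1, q2, e1, e2, e3, e4, e5, -⟩ := hv
    have hvW : v ∈ W := by
      rcases e3 with e | e | e <;> rw [e] <;> assumption
    have hqW : q2 ∈ W := by
      rcases e5 with e | e | e <;> rw [e] <;> assumption
    rw [Finset.mem_biUnion]
    refine ⟨v, Finset.mem_erase.2 ⟨?_, hvW⟩, Finset.mem_filter.2 ⟨hp, z, hz, hv0⟩⟩
    intro e
    have := hmax q2 hqW
    rw [e] at e2
    linarith
  have hup : E.card ≤ (W.card - 1) * 2 := by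
    calc E.card ≤ ((W.erase t).biUnion M).card := Finset.card_le_card hsub
      _ ≤ ∑ v ∈ W.erase t, (M v).card := Finset.card_biUnion_le
      _ ≤ ∑ v ∈ W.erase t, 2 := Finset.sum_le_sum fun v _ => hM2 v
      _ = (W.card - 1) * 2 := by
        rw [Finset.sum_const, Finset.card_erase_of_mem ht, smul_eq_mul]
  have hWpos : 0 < W.card := hWne.card_pos
  omega

end Pool.Agent.H891R3.NR
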