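import Mathlib
import Pool.Agent.Results.MP_fb3fae_co.AllTriangles

set_option autoImplicit false

namespace Pool.Agent.H891R3.NR

open Module
open Pool.Agent.Results.MP_fb3fae_co.AllTriangles (E3 IsConvexPolyhedron IsTwoFace)

/-- The determinant of three vectors of `ℝ³`. -/
def vol3 (u v w : E3) : ℝ :=
  u 0 * (v 1 * w 2 - v 2 * w 1) - u 1 * (v 0 * w 2 - v 2 * w 0) + u 2 * (v 0 * w 1 - v 1 * w 0)

/-- The face `F` of `P` is a triangle `x y z` with sides `|yz| = a`, `|zx| = b`, `|xy| = c` whose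
vertices `x, y, z` run counterclockwise around `F` when seen from outside of `P`. -/
def CopyN (P F : Set E3) (a b c : ℝ) : Prop :=
  ∃ x y z : E3, F = convexHull ℝ {x, y, z} ∧ dist y z = a ∧ dist z x = b ∧ dist x y = c ∧
    ∀ o ∈ interior P, 0 < vol3 (y - x) (z - x) (x - o)

/-- All two-dimensional faces of the convex polyhedron `P` are copies of one oriented triangle. -/
def AllCopies (P : Set E3) (a b c : ℝ) : Prop :=
  IsConvexPolyhedron P ∧ ∀ F, IsTwoFace P F → CopyN P F a b c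

/-- Sufficiency, isosceles triangles (use `AllTriangles.result`; swap two labels if the orientation
is wrong). -/
def TaskIso : Prop := ∀ a b c : ℝ, 0 < a → 0 < b → 0 < c → a < b + c → b < c + a → c < a + b →
  (a = b ∨ b = c ∨ c = a) → ∃ P : Set E3, AllCopies P a b c

/-- Sufficiency, acute triangles (disphenoid inscribed in a box). -/
def TaskAcute : Prop := ∀ a b c : ℝ, 0 < a → 0 < b → 0 < c →
  a ^ 2 < b ^ 2 + c ^ 2 → b ^ 2 < c ^ 2 + a ^ 2 → c ^ 2 < a ^ 2 + b ^ 2 →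
  ∃ P : Set E3, AllCopies P a b c

/-- `x, y, z` are vertices of a supporting plane of the finite set `V` which contains no other point
of `V`; sides and orientation as in `CopyN`. -/
def Facet (V : Finset E3) (a b c : ℝ) (x y z : E3) : Prop :=
  x ∈ V ∧ y ∈ V ∧ z ∈ V ∧ dist y z = a ∧ dist z x = b ∧ dist x y = c ∧
    ∀ v ∈ V, v ≠ x → v ≠ y → v ≠ z → vol3 (y - x) (z - x) (v - x) < 0

/-- The combinatorial data extracted from a polyhedron. -/
structure Sys (V : Finset E3) (o : E3) (a b c : ℝ) : Prop where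
  /-- the points are not coplanar -/
  noncoplanar : ∀ (l : E3 →ₗ[ℝ] ℝ) (M : ℝ), (∀ v ∈ V, l v = M) → l = 0
  /-- `o` is an interior point -/
  inner : ∀ x y z, Facet V a b c x y z → vol3 (y - x) (z - x) (o - x) < 0
  /-- every supporting plane with three non-collinear points of `V` belongs to a facet -/
  contact : ∀ (l : E3 →ₗ[ℝ] ℝ) (M : ℝ), (∀ v ∈ V, l v ≤ M) →
    (∃ p ∈ V, ∃ q ∈ V, ∃ r ∈ V, l p = M ∧ l q = M ∧ l r = M ∧ AffineIndependent ℝ ![p, q, r]) →
    ∃ x y z, Facet V a b c x y z ∧ ∀ v ∈ V, (l v = M ↔ v = x ∨ v = y ∨ v = z)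

/-- The vertices of `P` form such a system (take `V` = extreme points of `P`, `o` interior). -/
def TaskTranslate : Prop := ∀ (P : Set E3) (a b c : ℝ), 0 < a → 0 < b → 0 < c →
  AllCopies P a b c → ∃ (V : Finset E3) (o : E3), Sys V o a b c ∧ o ∈ interior (convexHull ℝ (V : Set E3))

/-- There is at least one supporting plane with three non-collinear points (extreme point of the
polar body). -/
def TaskExists : Prop := ∀ (V : Finset E3) (o : E3), o ∈ interior (convexHull ℝ (V : Set E3)) →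
  ∃ (l : E3 →ₗ[ℝ] ℝ) (M : ℝ), (∀ v ∈ V, l v ≤ M) ∧
    ∃ p ∈ V, ∃ q ∈ V, ∃ r ∈ V, l p = M ∧ l q = M ∧ l r = M ∧ AffineIndependent ℝ ![p, q, r]

/-- The core: some vertex lies on exactly three facets, which gives a disphenoid. -/
def TaskCore : Prop := ∀ (V : Finset E3) (o : E3) (a b c : ℝ), 0 < a → 0 < b → 0 < c →
  a ≠ b → b ≠ c → c ≠ a → Sys V o a b c → (∃ x y z, Facet V a b c x y z) →
  ∃ v y z w : E3, dist v y = c ∧ dist z w = c ∧ dist v w = a ∧ dist y z = a ∧ dist v z = b ∧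
    dist y w = b ∧ vol3 (y - v) (z - v) (w - v) ≠ 0

/-- A nondegenerate disphenoid has acute faces. -/
def TaskDisphenoid : Prop := ∀ (v y z w : E3) (a b c : ℝ), 0 < a → 0 < b → 0 < c →
  dist v y = c → dist z w = c → dist v w = a → dist y z = a → dist v z = b → dist y w = b →
  vol3 (y - v) (z - v) (w - v) ≠ 0 →
  a ^ 2 < b ^ 2 + c ^ 2 ∧ b ^ 2 < c ^ 2 + a ^ 2 ∧ c ^ 2 < a ^ 2 + b ^ 2

theorem final (hI : TaskIso) (hA : TaskAcute) (hT : TaskTranslate) (hE : TaskExists)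
    (hC : TaskCore) (hD : TaskDisphenoid) (a b c : ℝ) (ha : 0 < a) (hb : 0 < b) (hc : 0 < c)
    (h1 : a < b + c) (h2 : b < c + a) (h3 : c < a + b) :
    (∃ P : Set E3, AllCopies P a b c) ↔ (a = b ∨ b = c ∨ c = a) ∨
      (a ^ 2 < b ^ 2 + c ^ 2 ∧ b ^ 2 < c ^ 2 + a ^ 2 ∧ c ^ 2 < a ^ 2 + b ^ 2) := by
  constructor
  · rintro ⟨P, hP⟩
    by_cases hiso : a = b ∨ b = c ∨ c = a
    · exact Or.inl hiso
    · push Not at hiso
      obtain ⟨V, o, hS, ho⟩ := hT P a b c ha hb hc hP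
      obtain ⟨l, M, hl, hpts⟩ := hE V o ho
      obtain ⟨x, y, z, hF, -⟩ := hS.contact l M hl hpts
      obtain ⟨v, y, z, w, e1, e2, e3, e4, e5, e6, e7⟩ :=
        hC V o a b c ha hb hc hiso.1 hiso.2.1 hiso.2.2 hS ⟨x, y, z, hF⟩
      exact Or.inr (hD v y z w a b c ha hb hc e1 e2 e3 e4 e5 e6 e7)
  · rintro (h | ⟨g1, g2, g3⟩)
    · exact hI a b c ha hb hc h1 h2 h3 h
    · exact hA a b c ha hb hc g1 g2 g3

end Pool.Agent.H891R3.NR
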