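import Pool.Agent.H891R3.NR.Stmts

/-!
# TaskIso: isosceles triangles (helper871)
-/

set_option autoImplicit false

namespace Pool.Agent.H891R3.NR.Iso

open Module Pool.Agent.H891R3.NR
open Pool.Agent.Results.MP_fb3fae_co.AllTriangles (E3 IsConvexPolyhedron IsTwoFace pt dist_pt
  image_convexHull_isometry)

lemma dist_sq (x y : E3) : dist x y ^ 2 = (x 0 - y 0) ^ 2 + (x 1 - y 1) ^ 2 + (x 2 - y 2) ^ 2 := by
  rw [EuclideanSpace.dist_eq, Real.sq_sqrt (Finset.sum_nonneg fun i _ => sq_nonneg _),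
    Fin.sum_univ_three]
  simp only [Real.dist_eq, sq_abs]

/-- existence of the triangle -/
lemma exists_tri (a b c : ℝ) (ha : 0 < a) (hb : 0 < b) (hc : 0 < c) (h1 : a < b + c)
    (h2 : b < c + a) (h3 : c < a + b) : ∃ t : Fin 3 → E3, AffineIndependent ℝ t ∧
      dist (t 1) (t 2) = a ∧ dist (t 2) (t 0) = b ∧ dist (t 0) (t 1) = c := by
  set u : ℝ := (b ^ 2 + c ^ 2 - a ^ 2) / (2 * c) with hu
  have hu2 : 2 * c * u = b ^ 2 + c ^ 2 - a ^ 2 := by rw [hu]; field_simp
  have hpos : 0 < b ^ 2 - u ^ 2 := by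
    have e1 : 0 < 2 * c * (b - u) := by nlinarith
    have e2 : 0 < 2 * c * (b + u) := by nlinarith
    have e3 : 0 < b - u := by
      by_contra hcon
      push Not at hcon
      nlinarith
    have e4 : 0 < b + u := by
      by_contra hcon
      push Not at hcon
      nlinarith
    nlinarith
  set v : ℝ := Real.sqrt (b ^ 2 - u ^ 2) with hv
  have hv0 : 0 < v := Real.sqrt_pos.2 hpos
  have hv2 : v ^ 2 = b ^ 2 - u ^ 2 := Real.sq_sqrt hpos.le
  refine ⟨![pt 0 0 0, pt c 0 0, pt u v 0], ?_, ?_, ?_, ?_⟩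
  · rw [affineIndependent_iff_not_collinear_set]
    intro hcol
    rw [collinear_iff_of_mem (p₀ := pt 0 0 0) (by simp)] at hcol
    obtain ⟨w, hw⟩ := hcol
    obtain ⟨r1, hr1⟩ := hw (pt c 0 0) (by simp)
    obtain ⟨r2, hr2⟩ := hw (pt u v 0) (by simp)
    have a1 := congrArg (fun x : E3 => x 0) hr1
    have a2 := congrArg (fun x : E3 => x 1) hr1
    have a3 := congrArg (fun x : E3 => x 0) hr2
    have a4 := congrArg (fun x : E3 => x 1) hr2
    simp [pt] at a1 a2 a3 a4
    rcases a2 with a2 | a2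
    · rw [a2] at a1; simp at a1; exact hc.ne' a1
    · rw [a2] at a4; simp at a4; exact hv0.ne' a4
  · simp only [Matrix.cons_val_one, Matrix.cons_val_zero, Matrix.cons_val]
    rw [dist_pt]
    have : (c - u) ^ 2 + (0 - v) ^ 2 + (0 - 0) ^ 2 = a ^ 2 := by nlinarith
    rw [this, Real.sqrt_sq ha.le]
  · simp only [Matrix.cons_val_one, Matrix.cons_val_zero, Matrix.cons_val]
    rw [dist_pt]
    have : (u - 0) ^ 2 + (v - 0) ^ 2 + (0 - 0) ^ 2 = b ^ 2 := by nlinarith
    rw [this, Real.sqrt_sq hb.le]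
  · simp only [Matrix.cons_val_one, Matrix.cons_val_zero]
    rw [dist_pt]
    have : (0 - c) ^ 2 + (0 - 0) ^ 2 + (0 - 0) ^ 2 = c ^ 2 := by ring
    rw [this, Real.sqrt_sq hc.le]

/-- a functional which is constant on the triangle is a multiple of the volume form -/
lemma sign_lemma (a b c : ℝ) (ha : 0 < a) (hb : 0 < b) (hc : 0 < c) (h1 : a < b + c)
    (h2 : b < c + a) (h3 : c < a + b) (X Y Z L : E3) (hL : L ≠ 0)
    (dYZ : dist Y Z = a) (dZX : dist Z X = b) (dXY : dist X Y = c)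
    (hY : inner ℝ L (Y - X) = 0) (hZ : inner ℝ L (Z - X) = 0) :
    ∃ D : ℝ, D ≠ 0 ∧ ∀ w : E3, vol3 (Y - X) (Z - X) w = D * inner ℝ L w := by
  have hin : ∀ w : E3, inner ℝ L w = L 0 * w 0 + L 1 * w 1 + L 2 * w 2 := by
    intro w
    rw [PiLp.inner_apply, Fin.sum_univ_three]
    simp only [RCLike.inner_apply, conj_trivial]
    ring
  set u := Y - X with hu
  set v := Z - X with hv
  rw [hin] at hY hZ
  -- length of L
  have hLL : 0 < L 0 ^ 2 + L 1 ^ 2 + L 2 ^ 2 := by
    rcases lt_or_eq_of_le (show 0 ≤ L 0 ^ 2 + L 1 ^ 2 + L 2 ^ 2 by positivity) with h | h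
    · exact h
    · exfalso
      apply hL
      have e0 : L 0 = 0 := by nlinarith [sq_nonneg (L 0), sq_nonneg (L 1), sq_nonneg (L 2)]
      have e1 : L 1 = 0 := by nlinarith [sq_nonneg (L 0), sq_nonneg (L 1), sq_nonneg (L 2)]
      have e2 : L 2 = 0 := by nlinarith [sq_nonneg (L 0), sq_nonneg (L 1), sq_nonneg (L 2)]
      ext i
      fin_cases i
      · exact e0
      · exact e1
      · exact e2
  -- the normal vector
  set n0 := u 1 * v 2 - u 2 * v 1 with hn0
  set n1 := u 2 * v 0 - u 0 * v 2 with hn1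
  set n2 := u 0 * v 1 - u 1 * v 0 with hn2
  have hvol : ∀ w : E3, vol3 u v w = n0 * w 0 + n1 * w 1 + n2 * w 2 := by
    intro w
    unfold vol3
    rw [hn0, hn1, hn2]; ring
  -- parallelism
  have p01 : L 0 * n1 = L 1 * n0 := by
    have e1 : L 0 * n1 - L 1 * n0 = u 2 * (L 0 * v 0 + L 1 * v 1 + L 2 * v 2) -
      v 2 * (L 0 * u 0 + L 1 * u 1 + L 2 * u 2) := by rw [hn0, hn1]; ring
    rw [hY, hZ] at e1; linarith
  have p02 : L 0 * n2 = L 2 * n0 := by
    have e1 : L 0 * n2 - L 2 * n0 = -(u 1 * (L 0 * v 0 + L 1 * v 1 + L 2 * v 2)) +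
      v 1 * (L 0 * u 0 + L 1 * u 1 + L 2 * u 2) := by rw [hn0, hn2]; ring
    rw [hY, hZ] at e1; linarith
  have p12 : L 1 * n2 = L 2 * n1 := by
    have e1 : L 1 * n2 - L 2 * n1 = u 0 * (L 0 * v 0 + L 1 * v 1 + L 2 * v 2) -
      v 0 * (L 0 * u 0 + L 1 * u 1 + L 2 * u 2) := by rw [hn1, hn2]; ring
    rw [hY, hZ] at e1; linarith
  have hN1 : n1 * (L 0 ^ 2 + L 1 ^ 2 + L 2 ^ 2) = L 1 * (L 0 * n0 + L 1 * n1 + L 2 * n2) := by
    have e : n1 * (L 0 ^ 2 + L 1 ^ 2 + L 2 ^ 2) - L 1 * (L 0 * n0 + L 1 * n1 + L 2 * n2) =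
      L 0 * (L 0 * n1 - L 1 * n0) - L 2 * (L 1 * n2 - L 2 * n1) := by ring
    rw [p01, p12] at e; linarith
  have hN2 : n2 * (L 0 ^ 2 + L 1 ^ 2 + L 2 ^ 2) = L 2 * (L 0 * n0 + L 1 * n1 + L 2 * n2) := by
    have e : n2 * (L 0 ^ 2 + L 1 ^ 2 + L 2 ^ 2) - L 2 * (L 0 * n0 + L 1 * n1 + L 2 * n2) =
      L 0 * (L 0 * n2 - L 2 * n0) + L 1 * (L 1 * n2 - L 2 * n1) := by ring
    rw [p02, p12] at e; linarith
  have hN0 : n0 * (L 0 ^ 2 + L 1 ^ 2 + L 2 ^ 2) = L 0 * (L 0 * n0 + L 1 * n1 + L 2 * n2) := by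
    have e : n0 * (L 0 ^ 2 + L 1 ^ 2 + L 2 ^ 2) - L 0 * (L 0 * n0 + L 1 * n1 + L 2 * n2) =
      -(L 1 * (L 0 * n1 - L 1 * n0)) - L 2 * (L 0 * n2 - L 2 * n0) := by ring
    rw [p01, p02] at e; linarith
  -- the normal vector is nonzero
  have hnn : 0 < n0 ^ 2 + n1 ^ 2 + n2 ^ 2 := by
    have hu2 : u 0 ^ 2 + u 1 ^ 2 + u 2 ^ 2 = c ^ 2 := by
      have := dist_sq X Y
      rw [dXY] at this
      rw [this, hu]
      simp only [PiLp.sub_apply]
      ring
    have hv2 : v 0 ^ 2 + v 1 ^ 2 + v 2 ^ 2 = b ^ 2 := by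
      have := dist_sq Z X
      rw [dZX] at this
      rw [this, hv]
      simp only [PiLp.sub_apply]
    have huv : (u 0 - v 0) ^ 2 + (u 1 - v 1) ^ 2 + (u 2 - v 2) ^ 2 = a ^ 2 := by
      have := dist_sq Y Z
      rw [dYZ] at this
      rw [this, hu, hv]
      simp only [PiLp.sub_apply]
      ring
    have hdot : 2 * (u 0 * v 0 + u 1 * v 1 + u 2 * v 2) = b ^ 2 + c ^ 2 - a ^ 2 := by
      linear_combination hu2 + hv2 - huv
    have e1 : n0 ^ 2 + n1 ^ 2 + n2 ^ 2 = (u 0 ^ 2 + u 1 ^ 2 + u 2 ^ 2) *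
      (v 0 ^ 2 + v 1 ^ 2 + v 2 ^ 2) - (u 0 * v 0 + u 1 * v 1 + u 2 * v 2) ^ 2 := by
      rw [hn0, hn1, hn2]; ring
    have e2 : 4 * (n0 ^ 2 + n1 ^ 2 + n2 ^ 2) = (2 * b * c) ^ 2 - (b ^ 2 + c ^ 2 - a ^ 2) ^ 2 := by
      rw [e1, hu2, hv2, ← hdot]; ring
    clear_value n0 n1 n2 u v
    have e3 : (2 * b * c) ^ 2 - (b ^ 2 + c ^ 2 - a ^ 2) ^ 2 =
      ((b + c + a) * (b + c - a)) * ((a + b - c) * (a + c - b)) := by ring
    have e4 : 0 < ((b + c + a) * (b + c - a)) * ((a + b - c) * (a + c - b)) := by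
      have q1 : 0 < b + c - a := by linarith
      have q2 : 0 < a + b - c := by linarith
      have q3 : 0 < a + c - b := by linarith
      positivity
    linarith
  set D0 := L 0 * n0 + L 1 * n1 + L 2 * n2 with hD0
  have hD : D0 ≠ 0 := by
    intro h
    rw [h, mul_zero] at hN0 hN1 hN2
    have f0 : n0 = 0 := (mul_eq_zero.1 hN0).resolve_right hLL.ne'
    have f1 : n1 = 0 := (mul_eq_zero.1 hN1).resolve_right hLL.ne'
    have f2 : n2 = 0 := (mul_eq_zero.1 hN2).resolve_right hLL.ne'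
    rw [f0, f1, f2] at hnn
    norm_num at hnn
  refine ⟨D0 / (L 0 ^ 2 + L 1 ^ 2 + L 2 ^ 2), div_ne_zero hD hLL.ne', fun w => ?_⟩
  rw [hvol, hin, div_mul_eq_mul_div, eq_div_iff hLL.ne']
  linear_combination w 0 * hN0 + w 1 * hN1 + w 2 * hN2

theorem taskIso : TaskIso := by
  intro a b c ha hb hc h1 h2 h3 hiso
  obtain ⟨t, ht, e1, e2, e3⟩ := exists_tri a b c ha hb hc h1 h2 h3
  obtain ⟨P, hP, hF⟩ := Pool.Agent.Results.MP_fb3fae_co.AllTriangles.result t ht
  refine ⟨P, hP, fun F hFace => ?_⟩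
  obtain ⟨g, hg⟩ := hF F hFace
  have hrange : Set.range t = {t 0, t 1, t 2} := by
    ext x
    simp only [Set.mem_range, Set.mem_insert_iff, Set.mem_singleton_iff]
    constructor
    · rintro ⟨m, rfl⟩
      fin_cases m <;> simp
    · rintro (rfl | rfl | rfl)
      exacts [⟨0, rfl⟩, ⟨1, rfl⟩, ⟨2, rfl⟩]
  rw [image_convexHull_isometry, hrange, Set.image_insert_eq, Set.image_pair] at hg
  set X := g (t 0) with hX
  set Y := g (t 1) with hY
  set Z := g (t 2) with hZ
  have dYZ : dist Y Z = a := by rw [hY, hZ, g.isometry.dist_eq]; exact e1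
  have dZX : dist Z X = b := by rw [hX, hZ, g.isometry.dist_eq]; exact e2
  have dXY : dist X Y = c := by rw [hX, hY, g.isometry.dist_eq]; exact e3
  obtain ⟨hexp, hne, hrank⟩ := hFace
  obtain ⟨l, hl⟩ := hexp hne
  have hXF : X ∈ F := by rw [hg]; exact subset_convexHull ℝ _ (by simp)
  have hYF : Y ∈ F := by rw [hg]; exact subset_convexHull ℝ _ (by simp)
  have hZF : Z ∈ F := by rw [hg]; exact subset_convexHull ℝ _ (by simp)
  have mX := hXF; have mY := hYF; have mZ := hZF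
  rw [hl] at mX mY mZ
  have lXY : l Y = l X := le_antisymm (mX.2 Y mY.1) (mY.2 X mX.1)
  have lXZ : l Z = l X := le_antisymm (mX.2 Z mZ.1) (mZ.2 X mX.1)
  set L : E3 := (InnerProductSpace.toDual ℝ E3).symm l with hLdef
  have hLl : ∀ w, inner ℝ L w = l w := fun w => InnerProductSpace.toDual_symm_apply
  have hL0 : L ≠ 0 := by
    intro h0
    have hl0 : ∀ w, l w = 0 := fun w => by rw [← hLl, h0, inner_zero_left]
    have hFP : F = P := by
      rw [hl]
      ext x
      simp [hl0]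
    have hspan : affineSpan ℝ P = ⊤ := by
      have h5 := IsOpen.affineSpan_eq_top isOpen_interior hP.2
      refine top_unique ?_
      rw [← h5]
      exact affineSpan_mono ℝ interior_subset
    have h6 : vectorSpan ℝ P = ⊤ := by
      rw [← direction_affineSpan, hspan, AffineSubspace.direction_top]
    rw [hFP, h6, finrank_top, finrank_euclideanSpace, Fintype.card_fin] at hrank
    norm_num at hrank
  obtain ⟨D, hD, hvol⟩ := sign_lemma a b c ha hb hc h1 h2 h3 X Y Z L hL0 dYZ dZX dXY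
    (by rw [hLl, map_sub, lXY, sub_self]) (by rw [hLl, map_sub, lXZ, sub_self])
  have hint : ∀ o ∈ interior P, l o < l X := by
    intro o ho
    have hcont : Filter.Tendsto (fun s : ℝ => o + s • L) (nhds 0) (nhds o) := by
      have : Continuous fun s : ℝ => o + s • L := by fun_prop
      have h7 := this.tendsto 0
      simpa using h7
    have hev := hcont.eventually (isOpen_interior.mem_nhds ho)
    obtain ⟨ε, hε, hball⟩ := Metric.eventually_nhds_iff.1 hev
    have h8 : o + (ε / 2) • L ∈ interior P := hball (by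
      rw [dist_zero_right, Real.norm_eq_abs, abs_of_pos (by linarith)]; linarith)
    have h9 := mX.2 _ (interior_subset h8)
    rw [map_add, map_smul, smul_eq_mul] at h9
    have h10 : 0 < l L := by
      rw [← hLl, real_inner_self_eq_norm_sq]
      have := norm_pos_iff.2 hL0
      positivity
    nlinarith
  have hvo : ∀ o : E3, vol3 (Y - X) (Z - X) (X - o) = D * (l X - l o) := by
    intro o
    rw [hvol, hLl, map_sub]
  rcases lt_or_gt_of_ne hD with hneg | hpos
  · -- swap two labels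
    have key : ∀ o ∈ interior P, vol3 (Y - X) (Z - X) (X - o) < 0 := by
      intro o ho
      rw [hvo]
      exact mul_neg_of_neg_of_pos hneg (sub_pos.2 (hint o ho))
    rcases hiso with h | h | h
    · -- a = b : swap x, y
      refine ⟨Y, X, Z, ?_, ?_, ?_, ?_, ?_⟩
      · rw [hg, Set.insert_comm]
      · rw [dist_comm, dZX, h]
      · rw [dist_comm, dYZ, h]
      · rw [dist_comm, dXY]
      · intro o ho
        have e : vol3 (X - Y) (Z - Y) (Y - o) = -vol3 (Y - X) (Z - X) (X - o) := by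
          unfold vol3
          simp only [PiLp.sub_apply]
          ring
        rw [e]
        linarith [key o ho]
    · -- b = c : swap y, z
      refine ⟨X, Z, Y, ?_, ?_, ?_, ?_, ?_⟩
      · rw [hg]
        congr 2
        exact Set.pair_comm _ _
      · rw [dist_comm, dYZ]
      · rw [dist_comm, dXY, h]
      · rw [dist_comm, dZX, h]
      · intro o ho
        have e : vol3 (Z - X) (Y - X) (X - o) = -vol3 (Y - X) (Z - X) (X - o) := by
          unfold vol3
          simp only [PiLp.sub_apply]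
          ring
        rw [e]
        linarith [key o ho]
    · -- c = a : swap z, x
      refine ⟨Z, Y, X, ?_, ?_, ?_, ?_, ?_⟩
      · rw [hg]
        congr 1
        ext w
        simp only [Set.mem_insert_iff, Set.mem_singleton_iff]
        tauto
      · rw [dist_comm, dXY, h]
      · rw [dist_comm, dZX]
      · rw [dist_comm, dYZ, h]
      · intro o ho
        have e : vol3 (Y - Z) (X - Z) (Z - o) = -vol3 (Y - X) (Z - X) (X - o) := by
          unfold vol3
          simp only [PiLp.sub_apply]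
          ring
        rw [e]
        linarith [key o ho]
  · refine ⟨X, Y, Z, hg, dYZ, dZX, dXY, ?_⟩
    intro o ho
    rw [hvo]
    exact mul_pos hpos (sub_pos.2 (hint o ho))

end Pool.Agent.H891R3.NR.Iso
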